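import Mathlib
import Pool.Agent.V8H94.GC.Converse
import Pool.Agent.V8H94.GC.PrimeDegree
import Pool.Agent.V8H71.OD.Main
import Pool.Agent.TH170.FT.MT
import Pool.Agent.Y137.MV.Criteria

/-!
# The Mumford-Tate conjecture for abelian varieties with one Frobenius element with several eigenvalues
in the same generic CM field

Let `K i` (`i` in a finite set) be CM fields with the following two properties.

* They are pairwise independent: for `i ≠ i'` and all complex embeddings `φ` of `K i` and `ψ` of
  `K i'` some automorphism of `ℂ` is the identity on `φ (K i)` and the complex conjugation on
  `ψ (K i')` (no condition if there is only one field).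
* Each `K = K i` is *generic* (`IsGeneric`): for any two complex embeddings `φ`, `ψ` of `K` which are
  neither equal nor complex conjugate some automorphism of `ℂ` is the identity on `φ (K)` and the
  complex conjugation on `ψ (K)`. In other words, the functions on the set of the embeddings of `K`
  which change their sign under complex conjugation form an absolutely irreducible representation
  of the group of automorphisms of `ℂ`. This is so for instance if the Galois group is as large as
  possible (it contains all changes of signs). The theorem contains a proof that all CM fields of
  the following kinds (`IsExample`) are generic: imaginary quadratic fields, fields of degree four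
  which are not normal over `ℚ`, fields of degree `2 l`, `l` an odd prime number, which contain no
  quadratic field.

For each `i` let `π ⟨i, k⟩` (`k` in a finite set `J i`) be **any number of Weil numbers in the same
field** `K i` (`IsWeil`), for `q = p ^ a`. The slope vector (`slopeVec`) of `π` is the
function `τ ↦ 2 v (τ π) - a` on the set of the embeddings of `K i` into an algebraic closure of `ℚ_p`,
`v (p) = 1`. It takes the values `2 s a - a`, where `s` are the slopes; nothing
is assumed about them (the Newton polygons are arbitrary).

Let `A` be an abelian variety over a number field (or a finitely generated subfield of the complex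
numbers), of any dimension and with arbitrary endomorphisms, which has good reduction at some place
with a residue field of `p ^ a` elements. Suppose that the characteristic polynomial of the Frobenius
element at this place is the product of the minimal polynomials of the numbers `π z`, `z = ⟨i, k⟩`
(`HasFrobenius`), and that for each `i` the slope vectors of the numbers `π ⟨i, k⟩`, `k` in `J i`,
are linearly independent over `ℚ`. (So the reduction of `A` is isogenous to a product of simple
abelian varieties, several of which may have multiplication by the same field.)

Then for all primes `ℓ` all Tate classes in the tensor powers of `H^1` (and so in the cohomology of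
all powers of `A`) are linear combinations of Hodge classes, and even of products of Hodge classes
of degree two (`MumfordTateStrong`). Together with the theorem of Deligne (Hodge classes are Tate
classes) this is **the Mumford-Tate conjecture for all powers of `A`**: the Hodge classes and the
Tate classes generate the same space. (So the Mumford-Tate group over `ℚ_ℓ` is the connected component
of the `ℓ`-adic monodromy group: both are reductive, and determined by their invariants in the spaces
`(H^1)^{⊗ 2 m}(m)`.) In the formal statement (`IsRealization`) `W` is `H_1(A, ℚ)`, `T` the tangent
space at the origin and `per : W → T` the inclusion, `ω₀` is the form given by a polarization; `V` is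
the rational Tate module with the comparison map `comp : W → V`, the action `ρ` of the Galois group
and the Weil pairing `ω`; `χ` is the cyclotomic character. The theorems of Faltings on endomorphisms
and on semisimplicity are part of the data.

The theorem also says: the only multiplicative relations between `p ^ a` and the conjugates of the
numbers `π z` are the trivial ones (`MaximalAngleRank`) if and only if for each `i` the slope vectors
are linearly independent; and the fields in the examples are generic.

That the absence of relations between the conjugates of the Weil numbers of one Frobenius element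
implies the Mumford-Tate conjecture was formalized in the starting files (MP_c1bb77_ag
OneFrobeniusTowers, MP_33b3f9_ag AlmostAllFrobeniusTypes). New are the criterion and the examples: all
criteria of this kind in the starting files (and in the literature) allow at most one simple factor
of the reduction for each CM field, or impose conditions on the slopes.

The proof. Let `L` be a Galois extension of `ℚ` which contains the conjugates of the fields `K i`,
`G` its group, `X i` the set of the embeddings of `K i`, `u ⟨i, k⟩` the slope vector of `π ⟨i, k⟩`. A
multiplicative relation between the conjugates of the numbers `π ⟨i, k⟩` and `q` gives odd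
functions `z ⟨i, k⟩ : X i → ℤ` with `∑ z ⟨i, k⟩ (φ) u ⟨i, k⟩ (g φ) = 0` for all `g` in `G` (the sum over
`i`, `k` and `φ`). Fix `i`, `φ₀` in `X i` and `g`, and sum over all `g h`, `h` in the stabilizer `H` of
`φ₀`. If `φ` in some `X i'` is not `φ₀` or its conjugate then an element of `H` maps `φ` to its
conjugate, so that the sum of the numbers `u (g h φ)` over `h` is zero. What remains is
`∑ k, z ⟨i, k⟩ (φ₀) u ⟨i, k⟩ (g φ₀) = 0`. As `g φ₀` is an arbitrary element of `X i`, the vector
`∑ k, z ⟨i, k⟩ (φ₀) u ⟨i, k⟩` is zero, so that `z ⟨i, k⟩ (φ₀) = 0` if the slope vectors are linearly
independent. Conversely, a linear relation with integral coefficients `m k` between the slope vectors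
implies that all absolute values of `∏ (π ⟨i, k⟩ / conj π ⟨i, k⟩) ^ m k` are one, so that this is a
root of unity (Kronecker). For fields of degree `2 l` without quadratic subfields: if two embeddings
cannot be separated as in the definition of generic fields, there is a nonzero integral matrix on
`X`, invariant under `G`, odd in both variables and zero on the diagonal; on the odd functions, the
group ring of a group of order `l`, a nonconstant eigenvector would give a relation between the
`l`-th roots of unity; hence the eigenspace of the constant vector is a line stable under `G`, and `G`
acts on it through a character which defines a quadratic subfield.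
-/

set_option autoImplicit false

namespace Pool.Agent.Results.MP_6c781a_ag.GenericFrobeniusFields

open NumberField Pool.Agent.H977R3.CM Pool.Agent.Y137.MV
  Pool.Agent.H204R3.GP Pool.Agent.TH170.FT Pool.Agent.V8H94.GC

open Pool.Agent.V8H71.OD (gen_of_angle)

/-- The Mumford-Tate conjecture for the abelian varieties with a Frobenius element whose
characteristic polynomial is the product of the minimal polynomials of the Weil numbers `π i` for
`p ^ a`, for the prime number `ℓ`. -/
def MumfordTate (p a : ℕ) [Fact p.Prime] {I : Type} [Fintype I]
    (K : I → Type) [∀ i, Field (K i)] [∀ i, NumberField (K i)] [∀ i, IsCMField (K i)]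
    (π : ∀ i, K i) (ℓ : ℕ) [Fact ℓ.Prime] : Prop :=
  ∀ (W T V Γ : Type) [AddCommGroup W] [Module ℚ W] [AddCommGroup T] [Module ℂ T]
    [AddCommGroup V] [Module ℚ_[ℓ] V] [FiniteDimensional ℚ_[ℓ] V] [Group Γ]
    (per : W →+ T) (ω₀ : W →ₗ[ℚ] W →ₗ[ℚ] ℚ) (comp : W →+ V) (ρ : Representation ℚ_[ℓ] Γ V)
    (χ : Γ →* ℚ_[ℓ]) (ω : V →ₗ[ℚ_[ℓ]] V →ₗ[ℚ_[ℓ]] ℚ_[ℓ]),
    IsRealization per ω₀ comp ρ χ ω → HasFrobenius ρ χ p a π → MumfordTateStrong per comp ρ χ

/-- **The Mumford-Tate conjecture for all abelian varieties with one Frobenius element whose
eigenvalues lie in generic, pairwise independent or equal CM fields, with linearly independent slope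
vectors for each field.** -/
theorem result (p : ℕ) [Fact p.Prime] (a : ℕ) (ha : 0 < a) (I : Type) [Fintype I]
    (K : I → Type) [∀ i, Field (K i)] [∀ i, NumberField (K i)] [∀ i, IsCMField (K i)]
    (hind : PairwiseIndep K) (hgen : ∀ i, IsGeneric (K i)) (J : I → Type) [∀ i, Fintype (J i)]
    (π : ∀ z : Σ i, J i, K z.1) (hπ : ∀ z, IsWeil p a (π z)) :
    ((∀ i, LinearIndependent ℚ
        fun k : J i => (slopeVec a (π ⟨i, k⟩) : (K i →+* PadicAlgCl p) → ℝ)) →
      ∀ (ℓ : ℕ) [Fact ℓ.Prime], MumfordTate p a (fun z : Σ i, J i => K z.1) π ℓ) ∧
    (MaximalAngleRank (p ^ a) π ↔ ∀ i, LinearIndependent ℚ
      fun k : J i => (slopeVec a (π ⟨i, k⟩) : (K i →+* PadicAlgCl p) → ℝ)) ∧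
    ∀ (E : Type) [Field E] [NumberField E] [IsCMField E], IsExample E → IsGeneric E := by
  refine ⟨fun hlin => ?_, ⟨fun h i => lin_of_angle (fun z => (hπ z).1)
    (fun z => (hπ z).2) h i, fun h => angle_of_lin hind hgen (fun z => (hπ z).2) h⟩,
    fun E _ _ _ h => isGeneric_of_example h⟩
  have hang := angle_of_lin hind hgen (fun z => (hπ z).2) hlin
  have hπ0 : ∀ z, π z ≠ 0 := fun z => ne_zero_of_weil (hπ z).2
  intro ℓ _ W T V Γ _ _ _ _ _ _ _ _ per ω₀ comp ρ χ ω hR hF
  obtain ⟨L, hL1, hL2, j, h⟩ :=
    Pool.Agent.H204R3.CM.exists_galois (fun z : Σ i, J i => K z.1)
  exact mumfordTate ha (fun z => gen_of_angle hang hπ0 z) (fun z => (hπ z).2) j h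
    (neat_of_angle j hang) hR hF

end Pool.Agent.Results.MP_6c781a_ag.GenericFrobeniusFields
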