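import Mathlib
import Pool.Agent.V8H71.OD.Main
import Pool.Agent.TH170.FT.MT
import Pool.Agent.Y137.MV.Criteria

/-!
# The Mumford-Tate conjecture for abelian varieties with one Frobenius element whose slopes are
controlled by a prime number at one real place

Let `A` be an abelian variety over a number field (or a finitely generated subfield of the complex
numbers), of any dimension and with arbitrary endomorphisms, which has good reduction at some place
with a residue field of `p ^ a` elements. Suppose that the characteristic polynomial of the Frobenius
element at this place is the product of the minimal polynomials of Weil numbers `π i` which lie in CM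
fields `K i` (`HasFrobenius`), pairwise independent: for `i ≠ k` and all complex embeddings `φ` of
`K i` and `ψ` of `K k` some automorphism of `ℂ` is the identity on `φ (K i)` and the complex
conjugation on `ψ (K k)` (no condition if the characteristic polynomial is irreducible). Let `u i` be
the slope function of `π i` (`HasSlopeFunction`): the slope at the embedding `τ : K i → ℚ̄_p` is
`(a + κ u i τ) / 2` with a rational number `κ ≠ 0` and integers `u i τ`; `u i τ = 0` is the slope
`a / 2`. Suppose that each `u i` satisfies one of the following conditions (`BlockCondition`), in
which `F` is a totally real subfield of `K i`, of any degree, and `ι : F → ℚ̄_p` is one embedding of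
`F` (the restriction of `τ₀`):

* (`OrbitBlock`) `[K i : F] = 2 l ^ k` for an odd prime `l`; `l` divides `u i τ` for all `τ` that do
  not extend `ι`; and some group of automorphisms has an orbit of `l ^ k` embeddings that extend `ι`
  over which the sum of `u i` is not divisible by `l`;
* (`CountBlock`) `[K i : F] = 2 l ^ k` for an odd prime `l`; `l` divides `u i τ` for all `τ` that do
  not extend `ι`; modulo `l` the values of `u i` at the `τ` that extend `ι` are `b`, `0` and `- b`,
  `l` does not divide `b`, and the value `b` occurs `m` times, where `m` is odd and less than `l`;
* (`TwoBlock`) `[K i : F] = 2 ^ (k + 1)`; `u i τ` is even for all `τ` that do not extend `ι`, and odd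
  for `m` of the `τ` that extend `ι`, where `m` is not divisible by `4` (`m` is always even); or the
  same with `even` and `odd` exchanged, if `4` divides `[K i : ℚ]`.

For instance (`CountBlock`, `F = ℚ`): `A` has dimension `l ^ k`, the characteristic polynomial of the
Frobenius element is irreducible, the slopes of the reduction are `0`, `1 / 2` and `1` and its `p`-rank
is odd and less than `l`. Or: `[K : F] = 2 l ^ k`, there is a place of degree one of `F` above `p`
such that all slopes at the other places are `1 / 2`, and at this place the slopes are `1 / 2` and,
with an odd multiplicity less than `l` each, `s` and `1 - s`.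

Then for all primes `ℓ` all Tate classes in the tensor powers of `H^1` (and so in the cohomology of
all powers of `A`) are linear combinations of Hodge classes, and even of products of Hodge classes
of degree two (`MumfordTateStrong`). Together with the theorem of Deligne (Hodge classes are Tate
classes) this is **the Mumford-Tate conjecture for all powers of `A`**: the Hodge classes and the
Tate classes generate the same space. (So the Mumford-Tate group over `ℚ_ℓ` is the connected component
of the `ℓ`-adic monodromy group: both are reductive, and determined by their invariants in the spaces
`(H^1)^{⊗ 2 m}(m)`.)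

In the formal statement (`IsRealization`) `W` is `H_1(A, ℚ)`, `T` the tangent space at the origin and
`per : W → T` the inclusion, `ω₀` is the form given by a polarization; `V` is the rational Tate module
with the comparison map `comp : W → V`, the action `ρ` of the Galois group and the Weil pairing `ω`;
`χ` is the cyclotomic character. The theorems of Faltings on endomorphisms and on semisimplicity are
part of the data.

That the absence of relations between the conjugates of the Weil numbers of one Frobenius element
implies the Mumford-Tate conjecture was formalized in the starting files (MP_c1bb77_ag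
OneFrobeniusTowers, MP_33b3f9_ag AlmostAllFrobeniusTypes); new are the conditions. For `F = ℚ` the
first one was used in `FrobeniusPrimePower` (MP_640417_ag) for Tate classes. Here the slopes are
restricted at one embedding of `F` only.

The proof that there are no relations, in the main case. Let `L` be the Galois closure of `K`, `G` its
group, `X` the set of the embeddings of `K`, `B` the set of those which extend `ι`, `l` odd. A
relation is an odd function `z : X → ℤ` orthogonal to all translates of `u`; we may assume that it is
not zero modulo `l`, and, as `G` is transitive, not zero modulo `l` on `B`. Modulo `l` the function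
`u` is zero outside of `B`; hence the restriction of `z` to `B` is orthogonal modulo `l` to the
translates of `u` under the stabilizer of `ι`. A Sylow subgroup `S` of the group in the condition is
transitive on the orbit `O`, as this has `l ^ k` elements; it acts on the space, not zero, of the odd
functions modulo `l` on `B` with this property; so there is such a function `w ≠ 0` invariant under
`S`. As `O` contains one element of each pair of complex conjugate elements of `B`, `w` is a nonzero
constant on `O`, and `2 w ∑ u = 0` modulo `l`, the sum over `O`, contrary to the assumption.
-/

set_option autoImplicit false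

namespace Pool.Agent.Results.MP_6c781a_ag.OneFrobeniusBlocks

open NumberField Pool.Agent.H977R3.CM Pool.Agent.Y137.MV
  Pool.Agent.H204R3.GP Pool.Agent.TH170.FT Pool.Agent.V8H71.OD

/-- The Mumford-Tate conjecture for the abelian varieties with a Frobenius element whose
characteristic polynomial is the product of the minimal polynomials of the Weil numbers `π i` for
`p ^ a`, for the prime number `ℓ`. -/
def MumfordTate (p a : ℕ) [Fact p.Prime] {I : Type} [Fintype I]
    (K : I → Type) [∀ i, Field (K i)] [∀ i, NumberField (K i)] [∀ i, IsCMField (K i)]
    (π : ∀ i, K i) (ℓ : ℕ) [Fact ℓ.Prime] : Prop :=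
  ∀ (W T V Γ : Type) [AddCommGroup W] [Module ℚ W] [AddCommGroup T] [Module ℂ T]
    [AddCommGroup V] [Module ℚ_[ℓ] V] [FiniteDimensional ℚ_[ℓ] V] [Group Γ]
    (per : W →+ T) (ω₀ : W →ₗ[ℚ] W →ₗ[ℚ] ℚ) (comp : W →+ V) (ρ : Representation ℚ_[ℓ] Γ V)
    (χ : Γ →* ℚ_[ℓ]) (ω : V →ₗ[ℚ_[ℓ]] V →ₗ[ℚ_[ℓ]] ℚ_[ℓ]),
    IsRealization per ω₀ comp ρ χ ω → HasFrobenius ρ χ p a π → MumfordTateStrong per comp ρ χ

/-- **The Mumford-Tate conjecture for all abelian varieties with one Frobenius element whose slope
functions satisfy the condition at one embedding of a totally real subfield.** -/
theorem result (p : ℕ) [Fact p.Prime] (a : ℕ) (ha : 0 < a) (I : Type) [Fintype I]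
    (K : I → Type) [∀ i, Field (K i)] [∀ i, NumberField (K i)] [∀ i, IsCMField (K i)]
    (hind : PairwiseIndep K) (π : ∀ i, K i) (u : ∀ i, (K i →+* PadicAlgCl p) → ℤ)
    (hu : ∀ i, HasSlopeFunction a (π i) (u i)) (hcond : ∀ i, BlockCondition (u i))
    (ℓ : ℕ) [Fact ℓ.Prime] : MumfordTate p a K π ℓ := by
  have hang := angle_of_block hind hu hcond
  have hπ0 : ∀ i, π i ≠ 0 := by
    intro i h0
    have h1 := (hu i).weil
    rw [h0, zero_mul] at h1
    exact pow_ne_zero a (Nat.cast_ne_zero.2 (Fact.out : p.Prime).ne_zero) h1.symm
  intro W T V Γ _ _ _ _ _ _ _ _ per ω₀ comp ρ χ ω hR hF
  obtain ⟨L, hL1, hL2, j, h⟩ := Pool.Agent.H204R3.CM.exists_galois K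
  exact mumfordTate ha (fun i => gen_of_angle hang hπ0 i) (fun i => (hu i).weil) j h
    (neat_of_angle j hang) hR hF

end Pool.Agent.Results.MP_6c781a_ag.OneFrobeniusBlocks
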