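import Mathlib
import Pool.Agent.H204R3.GP.MTDefs
import Pool.Agent.W516.MT.Defs
import Pool.Agent.V8H91.MT.Final

/-!
# One quartic Tate class decides the Mumford-Tate conjecture for all powers of an abelian variety

Let `A` be an abelian variety (of any dimension, with arbitrary endomorphisms) over a number field
or over a finitely generated subfield of the complex numbers, and `ℓ` a prime number.  We construct
ONE class `Θ` in `Sym² (Sym² H^1(A)) (2)`, a direct summand of `H^4(A^4)(2)` (`ℓ`-adic cohomology),
which is fixed by the whole Galois group, such that the Mumford-Tate conjecture holds for all powers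
`A^k` and all degrees `2 j` if and only if `Θ` is a linear combination of Hodge classes.  In
particular the case `(j, k) = (2, 4)` of the conjecture for `A` implies all cases `(j, k)` for `A`.

The class `Θ` is the Casimir tensor (for the trace form) of the Lie algebra `𝔤` of all
endomorphisms that annihilate all Tate classes.  Steps of the proof:

* an endomorphism that commutes with `𝔤` commutes with an open subgroup of the Galois group: for an
  element `s` close to one, limits of the difference quotients `ℓ^{-n} (ρ(s)^{ℓ^n} - 1)` are, up to a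
  scalar, in `𝔤`, and for matrices congruent to one modulo `ℓ²` the commutator of `T` with an
  endomorphism is controlled by the commutator of `T^{ℓ^n}`;
* `𝔤` acts semisimply (socle argument) and its trace form is nondegenerate: an element of the kernel
  of the trace form is central, and the components of a central element over the rational numbers
  vanish because of the positivity of the Rosati involution and the theorem on centres;
* an infinitesimal isometry that annihilates `Θ` is the sum of an element of `𝔤` and of an
  endomorphism which commutes with `𝔤`; for a rational endomorphism that kills the Hodge classes the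
  second summand is a central element of `End(A) ⊗ ℚ_ℓ` and the theorem on centres applies.

In the formal statement `W` is `H_1(A, ℚ)`, `T` the tangent space at the origin and `per : W → T`
the inclusion, `ω₀` is a Riemann form; `ℚ_ℓ ⊗ W` is the rational Tate module with the continuous
action `ρ` of the compact group `Γ` (the Galois group) and the Weil pairing `ω`; `χ` is the
cyclotomic character.  The hypotheses `hss`, `hF` are the theorems of Faltings, `hD` is the theorem
of Deligne and `hC` the theorem on centres (the Mumford-Tate conjecture is true for the centres;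
Vasiu, Ullmo-Yafaev).
-/

set_option autoImplicit false

namespace Pool.Agent.Results.MP_6c781a_ag.QuarticTateClass

open TensorProduct Pool.Agent.H204R3.GP Pool.Agent.W516.MTD

/-- The four variables of a quartic form. -/
def quad {V : Type*} (u v w x : V) : Fin 2 × Fin 2 → V :=
  fun l => if l.1 = 0 then (if l.2 = 0 then u else v) else (if l.2 = 0 then w else x)

/-- All matrix coefficients of the representation are continuous. -/
def ContinuousRep {k V Γ : Type*} [Field k] [TopologicalSpace k] [AddCommGroup V] [Module k V]
    [Group Γ] [TopologicalSpace Γ] (ρ : Representation k Γ V) : Prop :=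
  ∀ (v : V) (f : Module.Dual k V), Continuous fun s => f (ρ s v)

/-- There is one quartic Tate class, in `Sym² (Sym² H^1)(2)` and fixed by the whole Galois group,
such that all Tate classes on all powers are combinations of Hodge classes (and conversely) if and
only if this one class is a combination of Hodge classes. -/
theorem result (ℓ : ℕ) [Fact ℓ.Prime]
    -- the complex torus `A(ℂ)` with a Riemann form
    {W T : Type} [AddCommGroup W] [Module ℚ W] [FiniteDimensional ℚ W] [AddCommGroup T]
    [Module ℂ T] (per : W →+ T) (hper : IsRationalStructure per)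
    (ω₀ : W →ₗ[ℚ] W →ₗ[ℚ] ℚ) (hR : IsRiemannForm per ω₀)
    -- the Galois group, its continuous action on the Tate module and the Weil pairing
    {Γ : Type} [Group Γ] [TopologicalSpace Γ] [IsTopologicalGroup Γ] [CompactSpace Γ]
    (ρ : Representation ℚ_[ℓ] Γ (ℚ_[ℓ] ⊗[ℚ] W)) (hρ : ContinuousRep ρ)
    (χ : Γ →* ℚ_[ℓ]) (hχ : Continuous χ)
    (ω : ℚ_[ℓ] ⊗[ℚ] W →ₗ[ℚ_[ℓ]] ℚ_[ℓ] ⊗[ℚ] W →ₗ[ℚ_[ℓ]] ℚ_[ℓ])
    (hωω : ∀ u v : W, ω ((1 : ℚ_[ℓ]) ⊗ₜ[ℚ] u) ((1 : ℚ_[ℓ]) ⊗ₜ[ℚ] v) = ((ω₀ u v : ℚ) : ℚ_[ℓ]))
    (hωρ : ∀ s u v, ω (ρ s u) (ρ s v) = χ s * ω u v)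
    -- the theorems of Faltings and Deligne and the theorem on centres
    (hss : Semisimple ρ) (hF : Faltings per ρ) (hD : Deligne per ρ χ) (hC : Centres per ρ χ) :
    ∃ Θ : MultilinearMap ℚ_[ℓ] (fun _ : Fin 2 × Fin 2 => ℚ_[ℓ] ⊗[ℚ] W) ℚ_[ℓ],
      -- it is a Tate class, fixed by the whole Galois group
      (∀ s v, Θ (fun l => ρ s (v l)) = χ s ^ 2 * Θ v) ∧
      -- it is in `Sym² (Sym² H^1)`
      (∀ u v w x, Θ (quad u v w x) = Θ (quad v u w x) ∧ Θ (quad u v w x) = Θ (quad u v x w) ∧
        Θ (quad u v w x) = Θ (quad w x u v)) ∧
      -- it decides the Mumford-Tate conjecture for all powers of `A`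
      (IsHodgeCombination per Θ ↔ ∀ (m : ℕ)
        (φ : MultilinearMap ℚ_[ℓ] (fun _ : Fin m × Fin 2 => ℚ_[ℓ] ⊗[ℚ] W) ℚ_[ℓ]),
        IsTateTensor ρ χ m φ ↔ IsHodgeCombination per φ) :=
  Pool.Agent.V8H91.MT.quartic_final per ρ χ ω₀ ω hρ hχ hper hR hωω hωρ hss hF hD hC

end Pool.Agent.Results.MP_6c781a_ag.QuarticTateClass
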