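import Pool.Agent.V8H91.ZO.MTMain

/-!
# A zero-one law for the Mumford-Tate conjecture

Let `Y` be a smooth projective variety of dimension `d` over a number field `L ⊆ ℂ` (or over a
finitely generated field), `W = H^*(Y(ℂ), ℚ)`, `V = ℚ_ℓ ⊗ W = H^*(Y_L̄, ℚ_ℓ)` and `Γ` the Galois
group. A basis of `W` with `n` elements is fixed, so that `V = ℚ_ℓ ^ n` and `ℂ ⊗ W = ℂ ^ n`, and the
endomorphisms of `V ^ (⊗ m)` are the matrices indexed by the `m`-tuples of elements of `{1, ..., n}`.
Then `V ^ (⊗ m)` is the cohomology of `Y ^ m`, and by the Künneth formula and Poincaré duality
the Tate classes in `H ^ (2 d m) (Y ^ (2 m), ℚ_ℓ(d m))`, the middle cohomology of `Y ^ (2 m)`, are the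
endomorphisms of `V ^ (⊗ m)` which commute with a subgroup of finite index of `Γ` (`tate`); the Hodge
classes are the endomorphisms of the rational Hodge structure `W ^ (⊗ m)` (`IsHodge`, `hodge`).

Assume that Hodge classes on the powers of `Y` are Tate classes. This is a part of the conjecture,
and it is known for abelian varieties (Deligne), and for K3 surfaces and other varieties whose
cohomology is of abelian type. Then we have the following alternative:

* the Mumford-Tate conjecture is true for `Y`: all Tate classes on all powers of `Y` are combinations
  of Hodge classes; or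
* there is `c > 0` such that for all large `m` the space of the Tate classes in the middle cohomology
  of `Y ^ (2 m)` has dimension at least `c log m` times the dimension of the space of the combinations
  of Hodge classes.

So if, for infinitely many `m`, at least a fixed proportion of the Tate classes in the middle
cohomology of `Y ^ (2 m)`, say one in a million, is spanned by Hodge classes, then all Tate classes on
all powers of `Y` are combinations of Hodge classes. (All spaces `H ^ (2 j) (Y ^ k)(j)` embed in the
middle cohomology of even powers of `Y`, by multiplication with powers of a hyperplane class of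
further factors, compatibly with Hodge and Tate classes.)

The facts which are used about Hodge classes are the classical theorems on the Mumford-Tate group
(`MTFacts`): it is a connected reductive group and its invariants are the Hodge classes. Here the
group of all automorphisms of `V` which fix all Hodge endomorphisms of all `V ^ (⊗ m)` is used, that
is the group of `ℚ_ℓ`-points of the product of the Mumford-Tate group and the group of scalars.
Nothing is assumed about the Galois group: no semisimplicity, no theorem of Faltings.

Proof. Let `a m` be the dimension of the commutant of the Mumford-Tate group `M` on `V ^ (⊗ m)`, and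
`n = dim V`. Then `a (m + 1) ^ 2 ≤ a m * a (m + 2)` and `a (m + 1) ≤ n ^ 2 a m` (`comm_logconvex`,
`comm_le_mul`; Cauchy-Schwarz inequality and Schur test for multiplicities), and
`n ^ (2 m) ≤ a m (m + 1) ^ (n ^ 2)` (`comm_growth`), since the operators `g ⊗ ... ⊗ g` span a space
of polynomial dimension; so `a (m + 1) / a m` increases to `n ^ 2`. For every representation `Q` of
`M` occurring in the tensor algebra `dim Hom_M(Q, End(V ^ (⊗ m))) ≤ dim Q * a m` (`bil_le`). If some
Tate class `w` is not Hodge then, as `M` is connected, `w` has infinitely many conjugates, so that for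
some linear form `l` the function `f(g) = l(g w g⁻¹)` on `M` takes infinitely many values and
`1, f, ..., f ^ N` are independent; so the powers `w ^ (⊗ i)`, `i ≤ N`, (completed by identity
endomorphisms) generate an `M`-module `R` of dimension at least `N + 1`. All `M`-equivariant maps
`R → End(V ^ (⊗ m))` map this tuple to a Tate class, and by the above bound, applied to the
complement of `R`, there are almost `dim R * a m` such maps (`main_ineq`); `N` can be chosen of size
`log m` (`log_growth`).
-/

open Filter Pool.Agent.V8H91.ZO.MT

namespace Pool.Agent.Results.MP_6c781a_ag.ZeroOneLaw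

/-- **Zero-one law for the Mumford-Tate conjecture.** `μ` is the Hodge structure of `Y`, and `Γ` is
the Galois group, acting by `ρ` on the `ℓ`-adic cohomology of `Y`. -/
theorem result {n : ℕ} (ℓ : ℕ) [Fact ℓ.Prime]
    -- the Hodge structure and the theorems on the Mumford-Tate group
    (μ : ℂˣ →* GLn ℂ n) (hμ : MTFacts ℚ_[ℓ] μ)
    -- the Galois representation; Hodge classes are Tate classes
    {Γ : Type*} [Group Γ] (ρ : Γ →* GLn ℚ_[ℓ] n)
    (hodge_le_tate : ∀ m, hodge ℚ_[ℓ] μ m ≤ tate ρ m) :
    (∀ m, hodge ℚ_[ℓ] μ m = tate ρ m) ∨
    ∃ c : ℝ, 0 < c ∧ ∀ᶠ m : ℕ in atTop,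
      c * Real.log m * Module.finrank ℚ_[ℓ] (hodge ℚ_[ℓ] μ m) ≤
        Module.finrank ℚ_[ℓ] (tate ρ m) :=
  main hμ ρ hodge_le_tate

end Pool.Agent.Results.MP_6c781a_ag.ZeroOneLaw
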